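import Pool.Agent.H83.G.Targets1

/-!
Theorem G (MP_ee74d2_an): identification of `ℝ × ℝ^m` with a Euclidean space.
-/

set_option autoImplicit false

namespace Pool.Agent.H6.G

open MeasureTheory Set Pool.Agent.H83.G
open scoped ENNReal NNReal RealInnerProductSpace

/-- the identification as a linear equivalence -/
noncomputable def PhL (m : ℕ) : EuclideanSpace ℝ (Fin (m + 1)) ≃ₗ[ℝ] (ℝ × E m) where
  toFun x := (x 0, WithLp.toLp 2 fun i : Fin m => x i.succ)
  invFun y := WithLp.toLp 2 (Fin.cons y.1 fun i => y.2 i : Fin (m + 1) → ℝ)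
  map_add' x y := by
    refine Prod.ext rfl ?_
    ext i
    rfl
  map_smul' c x := by
    refine Prod.ext rfl ?_
    ext i
    rfl
  left_inv x := by
    ext i
    refine Fin.cases ?_ (fun j => ?_) i
    · rfl
    · rfl
  right_inv y := by
    refine Prod.ext rfl ?_
    ext i
    rfl

theorem PhL_mp (m : ℕ) : MeasurePreserving (PhL m) volume volume := by
  have h1 : MeasurePreserving (fun x : EuclideanSpace ℝ (Fin (m + 1)) => (x.ofLp : Fin (m + 1) → ℝ)) :=
    PiLp.volume_preserving_ofLp (Fin (m + 1))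
  have h2 := volume_preserving_piFinSuccAbove (fun _ : Fin (m + 1) => ℝ) 0
  have h3 : MeasurePreserving (fun x : Fin m → ℝ => (WithLp.toLp 2 x : E m)) :=
    PiLp.volume_preserving_toLp (Fin m)
  have h4 : MeasurePreserving (Prod.map id fun x : Fin m → ℝ => (WithLp.toLp 2 x : E m))
      ((volume : Measure ℝ).prod volume) ((volume : Measure ℝ).prod volume) :=
    (MeasurePreserving.id volume).prod h3
  exact h4.comp (h2.comp h1)

theorem pf_TRY : T_TRY := by
  intro m
  refine ⟨(PhL m).toContinuousLinearEquiv, PhL_mp m, fun x ξ => ?_⟩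
  change x 0 * ξ 0 + ⟪(WithLp.toLp 2 fun i : Fin m => x i.succ : E m),
    (WithLp.toLp 2 fun i : Fin m => ξ i.succ : E m)⟫ = ⟪x, ξ⟫
  rw [PiLp.inner_apply, PiLp.inner_apply, Fin.sum_univ_succ]
  simp [mul_comm]

end Pool.Agent.H6.G
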